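import Pool.Agent.H84.Rv

namespace Pool.Agent.Results.MP_50136b_lc.FromCH

open Pool.Agent.H84.RvDefs

theorem result (h : Cardinal.continuum.{0} = Cardinal.aleph 1) :
    MA ∧ ∃ A, Aleph1Dense A ∧ ¬ Reversible A ∧ ¬ Good A :=
  ⟨Pool.Agent.H84.Rv.ma_of_ch h, Pool.Agent.H84.Rv.of_ch h⟩

end Pool.Agent.Results.MP_50136b_lc.FromCH
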