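import Pool.Agent.H84.Rv

namespace Pool.Agent.Results.MP_50136b_lc.FromGood

open Pool.Agent.H84.RvDefs

theorem result (h : ∃ G, Aleph1Dense G ∧ Good G) :
    ∃ A, Aleph1Dense A ∧ ¬ Reversible A ∧ ¬ Good A :=
  h.elim fun _ r => Pool.Agent.H84.Rv.of_good r.1 r.2

end Pool.Agent.Results.MP_50136b_lc.FromGood
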